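import Pool.Agent.Lib.MP_4a7415_coS.Lazy
import Pool.Agent.Lib.MP_4a7415_coI.MonoP

/-! # Designs of large index with almost equal multiplicities in random hypergraphs -/

namespace Pool.Agent.Results.MP_4a7415_co.LargeIndex

open Finset Filter Topology

/-- The probability that the random `q`-uniform hypergraph on `Fin n`, in which each `q`-subset
is an edge independently with probability `p`, has the property `A`. -/
noncomputable def Prob (n q : ℕ) (p : ℝ) (A : Set (Finset (Finset (Fin n)))) : ℝ :=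
  ∑ G ∈ (powersetCard q (univ : Finset (Fin n))).powerset,
    A.indicator (fun G => p ^ G.card * (1 - p) ^ (n.choose q - G.card)) G

/-- The divisibility conditions for a multiplicity function `v` on the `r`-subsets: for every set
`T` of `i < r` points, `v` summed over the `r`-sets containing `T` is divisible by
`(q - i).choose (r - i)`. -/
def Divisible (n q r : ℕ) (v : Finset (Fin n) → ℕ) : Prop :=
  ∀ T : Finset (Fin n), T.card < r → (q - T.card).choose (r - T.card) ∣
    ∑ R ∈ powersetCard r (univ : Finset (Fin n)) with T ⊆ R, v R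

/-- `W` (so many copies of each member of `G`) decomposes `v`: every `r`-set `R` lies in exactly
`v R` members of `G`, counted with multiplicities `W`. -/
def IsDecomp (n r : ℕ) (v : Finset (Fin n) → ℕ) (G : Finset (Finset (Fin n)))
    (W : Finset (Fin n) → ℕ) : Prop :=
  ∀ R : Finset (Fin n), R.card = r → ∑ e ∈ G with R ⊆ e, W e = v R

/-- The mean degree: the expected number of edges through a fixed `r`-set. -/
noncomputable def meanDeg (n q r : ℕ) (p : ℝ) : ℝ := p * (n - r).choose (q - r)

theorem prob_eq (n q : ℕ) (p : ℝ) (A : Set (Finset (Finset (Fin n)))) :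
    Prob n q p A = MP4a7415.PrE (MP4a7415.Blk n q) p A := by
  have hc : (MP4a7415.Blk n q).card = n.choose q := by
    rw [card_powersetCard, card_univ, Fintype.card_fin]
  rw [Prob, MP4a7415.PrE, hc]
  rfl

theorem lim_one {N : ℕ → ℕ} (hN : Tendsto N atTop atTop) (k : ℝ) :
    Tendsto (fun i => 1 - k / ((N i : ℕ) : ℝ)) atTop (𝓝 1) := by
  have h4 : Tendsto (fun i => ((N i : ℕ) : ℝ)) atTop atTop :=
    tendsto_natCast_atTop_atTop.comp hN
  have := (h4.const_div_atTop k).const_sub 1
  rwa [sub_zero] at this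

/-- Let `1 ≤ r < q`, `ε > 0` and let `N i` tend to infinity. There is a constant `C` such that
for `p` at least `C * n ^ (-(q - r)) * log n`, with `D = meanDeg` the mean degree,
asymptotically almost surely the random `q`-uniform hypergraph is the block set of a
decomposition `W` of every divisible target close to `lam`, simultaneously for all real
`lam ≥ D / 2`, with all multiplicities between `(1 - ε) * lam / D - C` and
`(1 + ε) * lam / D + C`. -/
theorem result (q r : ℕ) (hr : 1 ≤ r) (hqr : r < q) (ε : ℝ) (hε : 0 < ε) :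
    ∃ C : ℝ, 0 < C ∧ ∃ δ : ℝ, 0 < δ ∧
      ∀ N : ℕ → ℕ, Tendsto N atTop atTop → ∀ p : ℕ → ℝ, (∀ i, 0 ≤ p i ∧ p i ≤ 1) →
      (∀ᶠ i in atTop, C * (Real.log (N i) / (N i : ℝ) ^ (q - r)) ≤ p i) →
      Tendsto (fun i => Prob (N i) q (p i)
        {G | ∀ lam : ℝ, meanDeg (N i) q r (p i) / 2 ≤ lam →
          ∀ v : Finset (Fin (N i)) → ℕ, Divisible (N i) q r v →
          (∀ R : Finset (Fin (N i)), R.card = r → |(v R : ℝ) - lam| ≤ δ * lam) →
          ∃ W : Finset (Fin (N i)) → ℕ, IsDecomp (N i) r v G W ∧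
          ∀ e ∈ G, |(W e : ℝ) * meanDeg (N i) q r (p i) - lam| ≤
            ε * lam + C * meanDeg (N i) q r (p i)})
        atTop (𝓝 1) := by
  classical
  obtain ⟨C1, δ1, k1, hC1, hδ1, h1⟩ := MP4a7415S.lazy q r hr hqr hε
  obtain ⟨C2, δ2, k2, hC2, hδ2, h2⟩ := MP4a7415S.lazy q r hr hqr one_pos
  obtain ⟨A, hA⟩ : ∃ A : ℝ, A = max C2 1 := ⟨_, rfl⟩
  have hA1 : 1 ≤ A := by
    rw [hA]
    exact le_max_right _ _
  have hAC : C2 ≤ A := by
    rw [hA]
    exact le_max_left _ _
  obtain ⟨C, hC⟩ : ∃ C : ℝ, C = max (max C1 (2 * A * A)) (4 * A * C1) := ⟨_, rfl⟩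
  have hCC1 : C1 ≤ C := by
    rw [hC]
    exact (le_max_left _ _).trans (le_max_left _ _)
  have hCA : 2 * A * A ≤ C := by
    rw [hC]
    exact (le_max_right _ _).trans (le_max_left _ _)
  have hCA1 : 4 * A * C1 ≤ C := by
    rw [hC]
    exact le_max_right _ _
  refine ⟨C, by linarith, min δ1 δ2, lt_min hδ1 hδ2, fun N hN p hp hlow => ?_⟩
  have hlim : Tendsto (fun i => (1 - k1 / ((N i : ℕ) : ℝ)) - (1 - (1 - k2 / ((N i : ℕ) : ℝ))))
      atTop (𝓝 1) := by
    have h3 := (lim_one hN k1).sub ((lim_one hN k2).const_sub 1)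
    simpa using h3
  refine tendsto_of_tendsto_of_tendsto_of_le_of_le' hlim tendsto_const_nhds ?_ ?_
  · filter_upwards [hN.eventually h1, hN.eventually h2, hlow,
      hN.eventually (eventually_ge_atTop (2 * q + 2))] with i h1 h2 h6 h7
    obtain ⟨n, hn⟩ : ∃ n, n = N i := ⟨_, rfl⟩
    rw [← hn] at h1 h2 h6 h7 ⊢
    rw [prob_eq]
    obtain ⟨P, hP⟩ : ∃ P, P = p i := ⟨_, rfl⟩
    have hP0 : 0 ≤ P := by
      rw [hP]
      exact (hp i).1
    have hP1 : P ≤ 1 := by
      rw [hP]
      exact (hp i).2
    rw [← hP] at h6 ⊢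
    have hn0 : (0 : ℝ) < n := by exact_mod_cast (by omega : 0 < n)
    have hl0 : 0 < Real.log n := Real.log_pos (by exact_mod_cast (by omega : 1 < n))
    have hx0 : 0 < Real.log n / (n : ℝ) ^ (q - r) := by positivity
    obtain ⟨D, hD⟩ : ∃ D, D = meanDeg n q r P := ⟨_, rfl⟩
    have hD0 : 0 ≤ D := by
      rw [hD]
      exact mul_nonneg hP0 (Nat.cast_nonneg _)
    have hDd : P * ((n - r).choose (q - r) : ℝ) = D := by
      rw [hD, meanDeg]
    have g1 := h1 P hP1 ((mul_le_mul_of_nonneg_right hCC1 hx0.le).trans h6)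
    rw [hDd] at g1
    rw [← hD]
    -- small `lam / D`, from a sparser hypergraph
    have hPle : P / (2 * A) ≤ P := div_le_self hP0 (by linarith)
    have g2 := h2 (P / (2 * A)) (hPle.trans hP1) (by
      rw [le_div_iff₀ (by linarith)]
      refine le_trans ?_ ((mul_le_mul_of_nonneg_right hCA hx0.le).trans h6)
      have h8 := mul_le_mul_of_nonneg_right hAC hx0.le
      have h9 := mul_le_mul_of_nonneg_right h8 (show 0 ≤ 2 * A by linarith)
      linarith)
    have hD' : P / (2 * A) * ((n - r).choose (q - r) : ℝ) = D / (2 * A) := by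
      rw [← hDd]
      ring
    rw [hD'] at g2
    have g3 : 1 - k2 / (n : ℝ) ≤ MP4a7415.PrE (MP4a7415.Blk n q) P
        {G | ∀ lam : ℝ, D / 2 ≤ lam → ∀ v : Finset (Fin n) → ℕ,
          Divisible n q r v → (∀ R : Finset (Fin n), R.card = r →
            |(v R : ℝ) - lam| ≤ δ2 * lam) →
          ∃ W : Finset (Fin n) → ℕ, IsDecomp n r v G W ∧ ∀ e, (W e : ℝ) * D ≤ 4 * A * lam} := by
      refine (g2.trans (MP4a7415.PrE_mono (by positivity) (hPle.trans hP1) ?_)).trans
        (MP4a7415.PrE_mono_p (by positivity) hPle hP1 ?_)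
      · intro G _ hG lam hlam v hv hvl
        have hlam0 : 0 ≤ lam := by linarith
        obtain ⟨W, hW, hWe⟩ := hG lam (by
          refine le_trans ?_ hlam
          rw [mul_div_assoc', div_le_div_iff₀ (by linarith) (by norm_num)]
          have h10 := mul_le_mul_of_nonneg_right hAC hD0
          linarith) v hv fun R hR => hvl R (mem_powersetCard.1 hR).2
        refine ⟨fun e => if e ∈ G then W e else 0, fun R hR => ?_, fun e => ?_⟩
        · rw [← hW R hR]
          refine sum_congr rfl fun e he => ?_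
          exact if_pos (mem_filter.1 he).1
        · change (((if e ∈ G then W e else 0 : ℕ) : ℕ) : ℝ) * D ≤ 4 * A * lam
          split_ifs with he
          · have h8 := (abs_le.1 (hWe e he)).2
            have h9 : (W e : ℝ) * (D / (2 * A)) ≤ 2 * lam := by linarith
            have h10 : (W e : ℝ) * D = 2 * A * ((W e : ℝ) * (D / (2 * A))) := by
              field_simp
            rw [h10]
            have h11 := mul_le_mul_of_nonneg_left h9 (show 0 ≤ 2 * A by linarith)
            linarith
          · rw [Nat.cast_zero, zero_mul]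
            positivity
      · intro G G' hGG' _ hG lam hbig v hv hvl
        obtain ⟨W, hW, hWe⟩ := hG lam hbig v hv hvl
        have hlam0 : 0 ≤ lam := by linarith
        refine ⟨fun e => if e ∈ G then W e else 0, fun R hR => ?_, fun e => ?_⟩
        · rw [← hW R hR, sum_filter, sum_filter, ← sum_subset hGG']
          · refine sum_congr rfl fun e he => ?_
            rw [if_pos he]
          · intro e _ he
            rw [if_neg he]
            simp
        · change (((if e ∈ G then W e else 0 : ℕ) : ℕ) : ℝ) * D ≤ 4 * A * lam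
          split_ifs with he
          · exact hWe e
          · rw [Nat.cast_zero, zero_mul]
            positivity
    set E1 : Set (Finset (Finset (Fin n))) := {G | ∀ lam : ℝ, C1 * D ≤ lam →
        ∀ v : Finset (Fin n) → ℕ, MP4a7415.Divi n q r v →
        (∀ R ∈ MP4a7415.Blk n r, |(v R : ℝ) - lam| ≤ δ1 * lam) →
        ∃ W : Finset (Fin n) → ℕ,
        (∀ R : Finset (Fin n), R.card = r → ∑ e ∈ G with R ⊆ e, W e = v R) ∧
        ∀ e ∈ G, |(W e : ℝ) * D - lam| ≤ ε * lam} with hE1
    set E2 : Set (Finset (Finset (Fin n))) := {G | ∀ lam : ℝ, D / 2 ≤ lam →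
        ∀ v : Finset (Fin n) → ℕ, Divisible n q r v → (∀ R : Finset (Fin n), R.card = r →
            |(v R : ℝ) - lam| ≤ δ2 * lam) →
          ∃ W : Finset (Fin n) → ℕ, IsDecomp n r v G W ∧ ∀ e, (W e : ℝ) * D ≤ 4 * A * lam} with hE2
    set E3 : Set (Finset (Finset (Fin n))) := {G | ∀ lam : ℝ, D / 2 ≤ lam →
        ∀ v : Finset (Fin n) → ℕ, Divisible n q r v →
        (∀ R : Finset (Fin n), R.card = r → |(v R : ℝ) - lam| ≤ min δ1 δ2 * lam) →
        ∃ W : Finset (Fin n) → ℕ, IsDecomp n r v G W ∧
        ∀ e ∈ G, |(W e : ℝ) * D - lam| ≤ ε * lam + C * D} with hE3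
    have c1 := MP4a7415.PrE_compl (MP4a7415.Blk n q) P E1
    have c2 := MP4a7415.PrE_compl (MP4a7415.Blk n q) P E2
    have c3 := MP4a7415.PrE_compl (MP4a7415.Blk n q) P E3
    have c4 := MP4a7415.PrE_union (E := MP4a7415.Blk n q) hP0 hP1 E1ᶜ E2ᶜ
    have c5 : MP4a7415.PrE (MP4a7415.Blk n q) P E3ᶜ ≤
        MP4a7415.PrE (MP4a7415.Blk n q) P (E1ᶜ ∪ E2ᶜ) := by
      refine MP4a7415.PrE_mono hP0 hP1 ?_
      intro G _ hG
      by_contra hcon
      rw [Set.mem_union, not_or] at hcon
      have q1 : G ∈ E1 := not_not.1 hcon.1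
      have q2 : G ∈ E2 := not_not.1 hcon.2
      refine hG fun lam hlam v hv hvl => ?_
      have hlam0 : 0 ≤ lam := by linarith
      by_cases hs : C1 * D ≤ lam
      · obtain ⟨W, hW1, hW2⟩ := q1 lam hs v hv (fun R hR =>
          (hvl R (mem_powersetCard.1 hR).2).trans
            (mul_le_mul_of_nonneg_right (min_le_left _ _) hlam0))
        exact ⟨W, hW1, fun e he => (hW2 e he).trans (by
          have : 0 ≤ C * D := mul_nonneg (by linarith) hD0
          linarith)⟩
      · obtain ⟨W, hW1, hW2⟩ := q2 lam hlam v hv (fun R hR => (hvl R hR).trans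
            (mul_le_mul_of_nonneg_right (min_le_right _ _) hlam0))
        refine ⟨W, hW1, fun e _ => ?_⟩
        have h8 := hW2 e
        have h9 : lam ≤ C1 * D := (not_le.1 hs).le
        have h10 : 4 * A * lam ≤ 4 * A * (C1 * D) :=
          mul_le_mul_of_nonneg_left h9 (by linarith)
        have h11 : 4 * A * (C1 * D) ≤ C * D := by
          have := mul_le_mul_of_nonneg_right hCA1 hD0
          linarith
        have h12 : 0 ≤ (W e : ℝ) * D := mul_nonneg (Nat.cast_nonneg _) hD0
        have h13 : 0 ≤ ε * lam := mul_nonneg hε.le hlam0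
        have h14 : lam ≤ C * D := by
          have : C1 * D ≤ C * D := mul_le_mul_of_nonneg_right hCC1 hD0
          linarith
        rw [abs_le]
        constructor <;> linarith
    linarith
  · exact Eventually.of_forall fun i => by
      rw [prob_eq]
      exact MP4a7415.PrE_le_one (hp i).1 (hp i).2 _

end Pool.Agent.Results.MP_4a7415_co.LargeIndex
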