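import Pool.Agent.Lib.MP_4a7415_coS.High
import Pool.Agent.Lib.MP_4a7415_co.Zero

/-! # Simple designs with logarithmic index in random hypergraphs -/

namespace Pool.Agent.Results.MP_4a7415_co.SimpleDesigns

open Finset Filter Topology

/-- The probability that the random `q`-uniform hypergraph on `Fin n`, in which each `q`-subset
is an edge independently with probability `p`, has the property `A`. -/
noncomputable def Prob (n q : ℕ) (p : ℝ) (A : Set (Finset (Finset (Fin n)))) : ℝ :=
  ∑ G ∈ (powersetCard q (univ : Finset (Fin n))).powerset,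
    A.indicator (fun G => p ^ G.card * (1 - p) ^ (n.choose q - G.card)) G

/-- The divisibility conditions for a multiplicity function `v` on the `r`-subsets: for every set
`T` of `i < r` points, `v` summed over the `r`-sets containing `T` is divisible by
`(q - i).choose (r - i)`. -/
def Divisible (n q r : ℕ) (v : Finset (Fin n) → ℕ) : Prop :=
  ∀ T : Finset (Fin n), T.card < r → (q - T.card).choose (r - T.card) ∣
    ∑ R ∈ powersetCard r (univ : Finset (Fin n)) with T ⊆ R, v R

/-- `S` is a simple decomposition of `v`: every `r`-set `R` lies in exactly `v R` members of the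
set `S` (no member is repeated). -/
def IsSimple (n r : ℕ) (v : Finset (Fin n) → ℕ) (S : Finset (Finset (Fin n))) : Prop :=
  ∀ R : Finset (Fin n), R.card = r → (S.filter fun e => R ⊆ e).card = v R

/-- The mean degree: the expected number of edges through a fixed `r`-set. -/
noncomputable def meanDeg (n q r : ℕ) (p : ℝ) : ℝ := p * (n - r).choose (q - r)

theorem prob_eq (n q : ℕ) (p : ℝ) (A : Set (Finset (Finset (Fin n)))) :
    Prob n q p A = MP4a7415.PrE (MP4a7415.Blk n q) p A := by
  have hc : (MP4a7415.Blk n q).card = n.choose q := by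
    rw [card_powersetCard, card_univ, Fintype.card_fin]
  rw [Prob, MP4a7415.PrE, hc]
  rfl

/-- Let `1 ≤ r < q` and let `N i` tend to infinity. (1) Let `p` be at least a constant times
`n ^ (-(q - r)) * log n` and let `D = meanDeg` be the mean degree. Asymptotically almost surely
the random `q`-uniform hypergraph `G` contains a simple decomposition (a subset `S ⊆ G`, no
repeated blocks) of every divisible target `v` close to `lam`, simultaneously for all real `lam`
with `C * log n ≤ lam ≤ D - C * √(D * log n)`. (2) Below a quarter of `n ^ (-(q - r)) * log n` the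
hypergraph almost surely carries not even real weights summing to one over the edges through each
`r`-set. -/
theorem result (q r : ℕ) (hr : 1 ≤ r) (hqr : r < q) :
    (∃ C : ℝ, 0 < C ∧ ∃ δ : ℝ, 0 < δ ∧
      ∀ N : ℕ → ℕ, Tendsto N atTop atTop → ∀ p : ℕ → ℝ, (∀ i, 0 ≤ p i ∧ p i ≤ 1) →
      (∀ᶠ i in atTop, C * (Real.log (N i) / (N i : ℝ) ^ (q - r)) ≤ p i) →
      Tendsto (fun i => Prob (N i) q (p i)
        {G | ∀ lam : ℝ, C * Real.log (N i) ≤ lam →
          lam ≤ meanDeg (N i) q r (p i) - C * √(meanDeg (N i) q r (p i) * Real.log (N i)) →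
          ∀ v : Finset (Fin (N i)) → ℕ, Divisible (N i) q r v →
          (∀ R : Finset (Fin (N i)), R.card = r →
            |(v R : ℝ) - lam| ≤ δ * min lam (meanDeg (N i) q r (p i) - lam)) →
          ∃ S ⊆ G, IsSimple (N i) r v S})
        atTop (𝓝 1)) ∧
    (∀ N : ℕ → ℕ, Tendsto N atTop atTop → ∀ p : ℕ → ℝ, (∀ i, 0 ≤ p i ∧ p i ≤ 1) →
      (∀ᶠ i in atTop, p i ≤ 1 / 4 * (Real.log (N i) / (N i : ℝ) ^ (q - r))) →
      Tendsto (fun i => Prob (N i) q (p i)
        {G | ∃ w : Finset (Fin (N i)) → ℝ,
          ∀ R : Finset (Fin (N i)), R.card = r → ∑ e ∈ G with R ⊆ e, w e = 1})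
        atTop (𝓝 0)) := by
  classical
  refine ⟨?_, ?_⟩
  · obtain ⟨C1, δ1, hC1, hδ1, f1, hf1, h1⟩ := MP4a7415S.all_low q r hr hqr
    obtain ⟨C2, δ2, hC2, hδ2, f2, hf2, h2⟩ := MP4a7415S.all_high q r hr hqr
    refine ⟨max C1 C2, lt_max_of_lt_left hC1, min δ1 δ2, lt_min hδ1 hδ2, fun N hN p hp hlow => ?_⟩
    have hlim : Tendsto (fun i => f1 (N i) - (1 - f2 (N i))) atTop (𝓝 1) := by
      have h3 := (hf1.comp hN).sub ((hf2.comp hN).const_sub 1)
      simpa using h3
    refine tendsto_of_tendsto_of_tendsto_of_le_of_le' hlim tendsto_const_nhds ?_ ?_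
    · filter_upwards [hN.eventually h1, hN.eventually h2, hlow,
        hN.eventually (eventually_ge_atTop (2 * q + 2))] with i h1 h2 h6 h7
      obtain ⟨n, hn⟩ : ∃ n, n = N i := ⟨_, rfl⟩
      rw [← hn] at h1 h2 h6 h7 ⊢
      rw [prob_eq]
      obtain ⟨P, hP⟩ : ∃ P, P = p i := ⟨_, rfl⟩
      have hP0 : 0 ≤ P := by
        rw [hP]
        exact (hp i).1
      have hP1 : P ≤ 1 := by
        rw [hP]
        exact (hp i).2
      rw [← hP] at h6 ⊢
      have hn0 : (0 : ℝ) < n := by exact_mod_cast (by omega : 0 < n)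
      have hl0 : 0 < Real.log n := Real.log_pos (by exact_mod_cast (by omega : 1 < n))
      have hx0 : 0 < Real.log n / (n : ℝ) ^ (q - r) := by positivity
      have g1 := h1 P hP1 ((mul_le_mul_of_nonneg_right (le_max_left _ _) hx0.le).trans h6)
      have g2 := h2 P hP1 ((mul_le_mul_of_nonneg_right (le_max_right _ _) hx0.le).trans h6)
      set E1 : Set (Finset (Finset (Fin n))) := {G | ∀ lam : ℝ, C1 * Real.log n ≤ lam →
        lam ≤ P * (n - r).choose (q - r) / 2 → G ∈ MP4a7415S.Good n q r lam δ1} with hE1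
      set E2 : Set (Finset (Finset (Fin n))) := {G | ∀ lam : ℝ,
        P * (n - r).choose (q - r) / 2 ≤ lam →
        lam ≤ P * (n - r).choose (q - r) - C2 * √(P * (n - r).choose (q - r) * Real.log n) →
        G ∈ MP4a7415S.GoodC n q r (P * (n - r).choose (q - r)) lam δ2} with hE2
      set E3 : Set (Finset (Finset (Fin n))) := {G | ∀ lam : ℝ,
          max C1 C2 * Real.log n ≤ lam →
          lam ≤ meanDeg n q r P - max C1 C2 * √(meanDeg n q r P * Real.log n) →
          ∀ v : Finset (Fin n) → ℕ, Divisible n q r v →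
          (∀ R : Finset (Fin n), R.card = r →
            |(v R : ℝ) - lam| ≤ min δ1 δ2 * min lam (meanDeg n q r P - lam)) →
          ∃ S ⊆ G, IsSimple n r v S} with hE3
      have c1 := MP4a7415.PrE_compl (MP4a7415.Blk n q) P E1
      have c2 := MP4a7415.PrE_compl (MP4a7415.Blk n q) P E2
      have c3 := MP4a7415.PrE_compl (MP4a7415.Blk n q) P E3
      have c4 := MP4a7415.PrE_union (E := MP4a7415.Blk n q) hP0 hP1 E1ᶜ E2ᶜ
      have c5 : MP4a7415.PrE (MP4a7415.Blk n q) P E3ᶜ ≤
          MP4a7415.PrE (MP4a7415.Blk n q) P (E1ᶜ ∪ E2ᶜ) := by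
        refine MP4a7415.PrE_mono hP0 hP1 ?_
        intro G _ hG
        by_contra hcon
        rw [Set.mem_union, not_or] at hcon
        have q1 : G ∈ E1 := not_not.1 hcon.1
        have q2 : G ∈ E2 := not_not.1 hcon.2
        refine hG fun lam hlam hlam' v hv hvl => ?_
        have hlam0 : 0 < lam := lt_of_lt_of_le (mul_pos (lt_max_of_lt_left hC1) hl0) hlam
        have hmin0 : 0 ≤ max C1 C2 * √(meanDeg n q r P * Real.log n) :=
          mul_nonneg (lt_max_of_lt_left hC1).le (Real.sqrt_nonneg _)
        have hDl : 0 ≤ meanDeg n q r P - lam := by linarith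
        rcases le_total lam (meanDeg n q r P / 2) with hs | hs
        · obtain ⟨S, hS1, hS2⟩ := q1 lam
            ((mul_le_mul_of_nonneg_right (le_max_left _ _) hl0.le).trans hlam) hs v hv
            (fun R hR => (hvl R (mem_powersetCard.1 hR).2).trans
              (mul_le_mul (min_le_left _ _) (min_le_left _ _) (le_min hlam0.le hDl) hδ1.le))
          exact ⟨S, hS1, fun R hR => hS2 R (mem_powersetCard.2 ⟨subset_univ _, hR⟩)⟩
        · obtain ⟨S, hS1, hS2⟩ := q2 lam hs (by
            have h8 := mul_le_mul_of_nonneg_right (le_max_right C1 C2)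
              (Real.sqrt_nonneg (meanDeg n q r P * Real.log n))
            rw [meanDeg] at h8 hlam'
            linarith) v hv
            (fun R hR => (hvl R (mem_powersetCard.1 hR).2).trans
              (mul_le_mul (min_le_right _ _) (min_le_right _ _) (le_min hlam0.le hDl) hδ2.le))
          exact ⟨S, hS1, fun R hR => hS2 R (mem_powersetCard.2 ⟨subset_univ _, hR⟩)⟩
      linarith
    · exact Eventually.of_forall fun i => by
        rw [prob_eq]
        exact MP4a7415.PrE_le_one (hp i).1 (hp i).2 _
  · intro N hN p hp hup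
    obtain ⟨b, hb0, hb⟩ := MP4a7415.zero_bound hr hqr
    refine tendsto_of_tendsto_of_tendsto_of_le_of_le' tendsto_const_nhds (hb0.comp hN) ?_ ?_
    · exact Eventually.of_forall fun i => by
        rw [prob_eq]
        exact MP4a7415.PrE_nonneg (hp i).1 (hp i).2 _
    · filter_upwards [hN.eventually hb, hup] with i h5 h6
      rw [prob_eq]
      refine (MP4a7415.PrE_mono (hp i).1 (hp i).2 ?_).trans (h5 (p i) (hp i).1 (hp i).2 h6)
      rintro G _ ⟨w, hw⟩ R hR
      by_contra hc
      push Not at hc
      have h7 := hw R (mem_powersetCard.1 hR).2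
      rw [filter_false_of_mem (fun e he => hc e he), sum_empty] at h7
      exact zero_ne_one h7

end Pool.Agent.Results.MP_4a7415_co.SimpleDesigns
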